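import Mathlib

/-!
# A matrix of complementary rank
-/

set_option autoImplicit false

namespace Pool.Agent.Lib.MP_64d474_lc.MF

open Matrix

theorem rank_add_le66 {F : Type*} [Field F] {w : ℕ} (A B : Matrix (Fin w) (Fin w) F) :
    (A + B).rank ≤ A.rank + B.rank := by
  have h : LinearMap.range (A + B).mulVecLin ≤
      LinearMap.range A.mulVecLin ⊔ LinearMap.range B.mulVecLin := by
    rintro _ ⟨x, rfl⟩
    rw [Matrix.mulVecLin_add, LinearMap.add_apply]
    exact Submodule.add_mem_sup ⟨x, rfl⟩ ⟨x, rfl⟩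
  exact (Submodule.finrank_mono h).trans (Submodule.finrank_add_le_finrank_add_finrank _ _)

theorem exists_compl66 {F : Type*} [Field F] {w : ℕ} (V : Matrix (Fin w) (Fin w) F) :
    ∃ K : Matrix (Fin w) (Fin w) F, K.rank + V.rank ≤ w ∧ (V + K).det ≠ 0 := by
  obtain ⟨P, Q, e, hP, hQ, h⟩ := Matrix.exists_rank_normal_form V
  have hP' : IsUnit P.det := (Matrix.isUnit_iff_isUnit_det _).1 hP
  have hQ' : IsUnit Q.det := (Matrix.isUnit_iff_isUnit_det _).1 hQ
  let E : Matrix (Fin w) (Fin (Fintype.card (Fin w) - V.rank)) F :=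
    Matrix.of fun i j => if e i = Sum.inr j then 1 else 0
  have hE : E * E.transpose =
      ((fromBlocks 0 0 0 1 : Matrix (Fin V.rank ⊕ Fin (Fintype.card (Fin w) - V.rank))
        (Fin V.rank ⊕ Fin (Fintype.card (Fin w) - V.rank)) F)).submatrix e e := by
    ext i j
    rw [Matrix.mul_apply, Matrix.submatrix_apply]
    rcases hi : e i with a | a <;> rcases hj : e j with b | b
    · simp [E, hi, hj]
    · simp [E, hi, hj]
    · simp [E, hi, hj]
    · simp [E, hi, hj, Matrix.one_apply, eq_comm]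
  refine ⟨P⁻¹ * (E * E.transpose) * Q⁻¹, ?_, ?_⟩
  · have h1 : (P⁻¹ * (E * E.transpose) * Q⁻¹).rank ≤ w - V.rank := by
      refine (Matrix.rank_mul_le_left _ _).trans ((Matrix.rank_mul_le_right _ _).trans
        ((Matrix.rank_mul_le_left _ _).trans ?_))
      exact (Matrix.rank_le_width E).trans (by rw [Fintype.card_fin])
    have h2 : V.rank ≤ w := Matrix.rank_le_width V
    omega
  · have h1 : P * (V + P⁻¹ * (E * E.transpose) * Q⁻¹) * Q = 1 := by
      rw [Matrix.mul_add, Matrix.add_mul, h, hE]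
      have h2 : P * (P⁻¹ * ((fromBlocks 0 0 0 1 : Matrix
          (Fin V.rank ⊕ Fin (Fintype.card (Fin w) - V.rank))
          (Fin V.rank ⊕ Fin (Fintype.card (Fin w) - V.rank)) F)).submatrix e e * Q⁻¹) * Q =
          ((fromBlocks 0 0 0 1 : Matrix (Fin V.rank ⊕ Fin (Fintype.card (Fin w) - V.rank))
        (Fin V.rank ⊕ Fin (Fintype.card (Fin w) - V.rank)) F)).submatrix e e := by
        rw [Matrix.mul_assoc P⁻¹, ← Matrix.mul_assoc P, Matrix.mul_nonsing_inv _ hP',
          Matrix.one_mul, Matrix.mul_assoc, Matrix.nonsing_inv_mul _ hQ', Matrix.mul_one]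
      rw [h2]
      change ((fromBlocks 1 0 0 0 : Matrix (Fin V.rank ⊕ Fin (Fintype.card (Fin w) - V.rank))
        (Fin V.rank ⊕ Fin (Fintype.card (Fin w) - V.rank)) F) +
          fromBlocks 0 0 0 1).submatrix e e = 1
      rw [Matrix.fromBlocks_add]
      simp [Matrix.fromBlocks_one]
    intro h0
    have h3 := congrArg Matrix.det h1
    rw [Matrix.det_mul, Matrix.det_mul, h0, mul_zero, zero_mul, Matrix.det_one] at h3
    exact zero_ne_one h3

theorem rank_le_of_det66 {F : Type*} [Field F] {w ρ : ℕ} {U K : Matrix (Fin w) (Fin w) F}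
    (hK : K.rank + ρ ≤ w) (h : (U + K).det ≠ 0) : ρ ≤ U.rank := by
  have h1 : (U + K).rank = w := by
    rw [Matrix.rank_of_isUnit _ ((Matrix.isUnit_iff_isUnit_det _).2 (isUnit_iff_ne_zero.2 h)),
      Fintype.card_fin]
  have h2 := rank_add_le66 U K
  omega

end Pool.Agent.Lib.MP_64d474_lc.MF
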