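import Pool.Agent.Lib.MP_64d474_lc.Kal.Net

/-!
# Cuts of width `w` for symbolic matrices with `w` input and `w` output columns
-/

set_option autoImplicit false

open Finset Module Matrix MvPolynomial

namespace Pool.Agent.Lib.MP_64d474_lc.MF

open Pool.Agent.Lib.MP_64d474_lc.Kal
open Pool.Agent.Lib.MP_64d474_lc.Kal.Net (tmap leaves_tmap)

variable {F : Type*} [Field F] {ι ι' E E' : Type} [Fintype ι] [Fintype ι'] [Fintype E]
  [DecidableEq E] [Fintype E'] [DecidableEq E'] {w : ℕ}

/-- the column half of a cut, where the columns of `V` belong to the complement -/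
def Half (P : E → Matrix ι ι F) (V : Matrix ι (Fin w) F) (C : Finset E) : Prop :=
  cdim P C + finrank F (csp P Cᶜ ⊔ LinearMap.range V.mulVecLin : Submodule F (ι → F)) ≤
    Fintype.card ι + w

/-- the embedding lemma for columns -/
theorem half_embed (P : E → Matrix ι ι F) (P' : E' → Matrix ι' ι' F) (V : Matrix ι (Fin w) F)
    (V' : Matrix ι' (Fin w) F)
    (f : ι → ι') (g : E → E') (hf : Function.Injective f) (hg : Function.Injective g)
    (h1 : ∀ p i j, P' (g p) (f i) (f j) = P p i j)
    (h2 : ∀ p a b, a ∉ Set.range f → P' (g p) a b = 0)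
    (h3 : ∀ p a b, b ∉ Set.range f → P' (g p) a b = 0)
    (h4 : ∀ q, q ∉ Set.range g → ∃ C : Matrix (Fin w) ι' F, ∀ i b, P' q (f i) b = (V * C) i b)
    (h5 : ∃ C : Matrix (Fin w) (Fin w) F, ∀ i b, V' (f i) b = (V * C) i b) (C : Finset E)
    (hC : Half P V C) :
    Half P' V' (C.map ⟨g, hg⟩) := by
  classical
  -- restriction and extension by zero
  let r : (ι' → F) →ₗ[F] (ι → F) := LinearMap.funLeft F F f
  have hr : Function.Surjective r := LinearMap.funLeft_surjective_of_injective F F f hf
  let e : (ι → F) →ₗ[F] (ι' → F) := Function.ExtendByZero.linearMap F f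
  have he1 : ∀ (x : ι → F) i, e x (f i) = x i := fun x i => by
    show Function.extend f x 0 (f i) = x i
    exact hf.extend_apply x 0 i
  have he2 : ∀ (x : ι → F) a, a ∉ Set.range f → e x a = 0 := fun x a ha => by
    show Function.extend f x 0 a = 0
    rw [Function.extend_apply' _ _ _ (by simpa using ha)]
    rfl
  have hre : ∀ x, r (e x) = x := fun x => by
    ext i
    exact he1 x i
  -- the products with the pieces
  have hmul : ∀ p (x : ι' → F), (P' (g p)).mulVec x = e ((P p).mulVec (r x)) := by
    intro p x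
    ext a
    by_cases ha : a ∈ Set.range f
    · obtain ⟨i, rfl⟩ := ha
      rw [he1]
      simp only [Matrix.mulVec, dotProduct]
      have : ∑ j, P p i j * r x j = ∑ j, P' (g p) (f i) (f j) * x (f j) := by
        refine Finset.sum_congr rfl fun j _ => ?_
        rw [h1]
        rfl
      rw [this]
      rw [← Finset.sum_image (s := univ) (g := f) (f := fun b => P' (g p) (f i) b * x b)
        (fun a _ b _ h => hf h)]
      symm
      refine Finset.sum_subset (Finset.subset_univ _) fun b _ hb => ?_
      rw [h3 p (f i) b (by simpa using hb), zero_mul]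
    · rw [he2 _ _ ha]
      simp only [Matrix.mulVec, dotProduct]
      exact Finset.sum_eq_zero fun b _ => by rw [h2 p a b ha, zero_mul]
  -- the set `C`
  have hA : csp P' (C.map ⟨g, hg⟩) ≤ (csp P C).map e := by
    refine iSup₂_le fun q hq => ?_
    obtain ⟨p, hp, rfl⟩ := Finset.mem_map.1 hq
    rintro _ ⟨x, rfl⟩
    refine ⟨(P p).mulVec (r x), ?_, ?_⟩
    · exact (le_iSup₂ (f := fun p (_ : p ∈ C) => LinearMap.range (P p).mulVecLin) p hp)
        ⟨r x, rfl⟩
    · exact (hmul p x).symm
  have hA' : cdim P' (C.map ⟨g, hg⟩) ≤ cdim P C :=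
    (Submodule.finrank_mono hA).trans (Submodule.finrank_map_le e _)
  -- the complement
  have hB : csp P' (C.map ⟨g, hg⟩)ᶜ ⊔ LinearMap.range V'.mulVecLin ≤
      (csp P Cᶜ ⊔ LinearMap.range V.mulVecLin).comap r := by
    refine sup_le (iSup₂_le fun q hq => ?_) ?_
    · rintro _ ⟨x, rfl⟩
      by_cases hqr : q ∈ Set.range g
      · obtain ⟨p, rfl⟩ := hqr
        have hp : p ∈ Cᶜ := by
          rw [Finset.mem_compl] at hq ⊢
          intro h
          exact hq (Finset.mem_map.2 ⟨p, h, rfl⟩)
        refine Submodule.mem_sup_left ?_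
        show r ((P' (g p)).mulVec x) ∈ _
        rw [hmul, hre]
        exact (le_iSup₂ (f := fun p (_ : p ∈ Cᶜ) => LinearMap.range (P p).mulVecLin) p hp)
          ⟨r x, rfl⟩
      · refine Submodule.mem_sup_right ?_
        obtain ⟨c, hc⟩ := h4 q hqr
        refine ⟨c.mulVec x, ?_⟩
        show V.mulVec (c.mulVec x) = _
        rw [Matrix.mulVec_mulVec]
        ext i
        show (V * c).mulVec x i = (P' q).mulVec x (f i)
        simp only [Matrix.mulVec, dotProduct]
        refine Finset.sum_congr rfl fun b _ => ?_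
        rw [hc]
    · rintro _ ⟨x, rfl⟩
      refine Submodule.mem_sup_right ?_
      obtain ⟨c, hc⟩ := h5
      refine ⟨c.mulVec x, ?_⟩
      show V.mulVec (c.mulVec x) = _
      rw [Matrix.mulVec_mulVec]
      ext i
      show (V * c).mulVec x i = V'.mulVec x (f i)
      simp only [Matrix.mulVec, dotProduct]
      refine Finset.sum_congr rfl fun b _ => ?_
      rw [hc]
  have hB' : finrank F (csp P' (C.map ⟨g, hg⟩)ᶜ ⊔ LinearMap.range V'.mulVecLin :
      Submodule F (ι' → F)) + Fintype.card ι ≤
      finrank F (csp P Cᶜ ⊔ LinearMap.range V.mulVecLin : Submodule F (ι → F)) +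
        Fintype.card ι' := by
    have h6 := Submodule.finrank_mono hB
    have h7 : finrank F ((csp P Cᶜ ⊔ LinearMap.range V.mulVecLin).comap r :
        Submodule F (ι' → F)) + Fintype.card ι =
        finrank F (csp P Cᶜ ⊔ LinearMap.range V.mulVecLin : Submodule F (ι → F)) +
          Fintype.card ι' := by
      set S := csp P Cᶜ ⊔ LinearMap.range V.mulVecLin
      have h8 := LinearMap.finrank_range_add_finrank_ker r
      rw [LinearMap.range_eq_top.2 hr, finrank_top, Module.finrank_fintype_fun_eq_card,
        Module.finrank_fintype_fun_eq_card] at h8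
      have h9 := LinearMap.finrank_range_add_finrank_ker (r.domRestrict (S.comap r))
      have h10 : LinearMap.range (r.domRestrict (S.comap r)) = S := by
        rw [LinearMap.range_domRestrict, Submodule.map_comap_eq_of_surjective hr]
      have h11 : finrank F (LinearMap.ker (r.domRestrict (S.comap r))) =
          finrank F (LinearMap.ker r) := by
        have h12 : LinearMap.ker (r.domRestrict (S.comap r)) =
            (LinearMap.ker r).comap (S.comap r).subtype := by
          ext x
          simp
        rw [h12]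
        refine LinearEquiv.finrank_eq (Submodule.comapSubtypeEquivOfLe ?_)
        intro x hx
        rw [Submodule.mem_comap, LinearMap.mem_ker.1 hx]
        exact zero_mem _
      rw [h10, h11] at h9
      omega
    omega
  unfold Half at hC ⊢
  omega

/-- a cut, where the columns of `U`, `V` belong to the complement -/
def CutV (P : E → Matrix ι ι F) (U V : Matrix ι (Fin w) F) (C : Finset E) : Prop :=
  Half P V C ∧ Half (fun p => (P p).transpose) U C

/-- the set of all pieces -/
theorem half_univ (P : E → Matrix ι ι F) (V : Matrix ι (Fin w) F) : Half P V univ := by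
  unfold Half
  have h1 : cdim P univ ≤ Fintype.card ι := by
    have := Submodule.finrank_le (csp P univ)
    rwa [Module.finrank_fintype_fun_eq_card] at this
  have h2 : csp P (univ : Finset E)ᶜ = ⊥ := by
    simp [csp]
  have h3 : finrank F (LinearMap.range V.mulVecLin) ≤ w := by
    have := LinearMap.finrank_range_le V.mulVecLin
    simpa using this
  rw [h2, bot_sup_eq]
  omega

theorem cutV_univ (P : E → Matrix ι ι F) (U V : Matrix ι (Fin w) F) : CutV P U V univ :=
  ⟨half_univ _ _, half_univ _ _⟩

/-- cuts with columns are cuts -/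
theorem cut_of_cutV (P : E → Matrix ι ι F) (U V : Matrix ι (Fin w) F) (C : Finset E)
    (h : CutV P U V C) : Cut P w C := by
  obtain ⟨h1, h2⟩ := h
  unfold Half at h1 h2
  constructor
  · have : cdim P Cᶜ ≤ finrank F (csp P Cᶜ ⊔ LinearMap.range V.mulVecLin :
      Submodule F (ι → F)) := Submodule.finrank_mono le_sup_left
    omega
  · have : rdim P Cᶜ ≤ finrank F (csp (fun p => (P p).transpose) Cᶜ ⊔
      LinearMap.range U.mulVecLin : Submodule F (ι → F)) := Submodule.finrank_mono le_sup_left
    unfold rdim at this ⊢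
    omega

/-- some set of pieces with the wild pieces in the list `L` and no other wild pieces has a cut of
width `w`, where the columns of `U`, `V` belong to the complement -/
def SepV {m : ℕ} (P : E → Matrix ι ι F) (κ : E → Option (Fin m)) (U V : Matrix ι (Fin w) F)
    (L : List E) : Prop :=
  ∃ C : Finset E, (∀ p, κ p ≠ none → (p ∈ C ↔ p ∈ L)) ∧ CutV P U V C

/-- all subtrees have cuts of width `w` with the columns -/
def GoodV {m : ℕ} (P : E → Matrix ι ι F) (κ : E → Option (Fin m)) (U V : Matrix ι (Fin w) F) :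
    BT E → Prop
  | .nil => True
  | .leaf p => SepV P κ U V [p]
  | .node l r => GoodV P κ U V l ∧ GoodV P κ U V r ∧ SepV P κ U V (l.leaves ++ r.leaves)

/-- forget the columns -/
theorem good_of_goodV {m : ℕ} (P : E → Matrix ι ι F) (κ : E → Option (Fin m))
    (U V : Matrix ι (Fin w) F) (t : BT E) (h : GoodV P κ U V t) :
    Good P (fun p => κ p ≠ none) w t := by
  have hs : ∀ L, SepV P κ U V L → Sep P (fun p => κ p ≠ none) w L := by
    rintro L ⟨C, h1, h2⟩
    exact ⟨C, h1, cut_of_cutV P U V C h2⟩
  induction t with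
  | nil => trivial
  | leaf p => exact hs _ h
  | node l r hl hr => exact ⟨hl h.1, hr h.2.1, hs _ h.2.2⟩

/-- the embedding lemma for trees -/
theorem goodV_embed {m : ℕ} (P : E → Matrix ι ι F) (P' : E' → Matrix ι' ι' F)
    (κ : E → Option (Fin m)) (κ' : E' → Option (Fin m)) (U V : Matrix ι (Fin w) F)
    (U' V' : Matrix ι' (Fin w) F)
    (f : ι → ι') (g : E → E') (hf : Function.Injective f) (hg : Function.Injective g)
    (hκ : ∀ p, κ' (g p) = κ p)
    (h1 : ∀ p i j, P' (g p) (f i) (f j) = P p i j)
    (h2 : ∀ p a b, a ∉ Set.range f → P' (g p) a b = 0)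
    (h3 : ∀ p a b, b ∉ Set.range f → P' (g p) a b = 0)
    (h4 : ∀ q, q ∉ Set.range g → ∃ C : Matrix (Fin w) ι' F, ∀ i b, P' q (f i) b = (V * C) i b)
    (h4' : ∀ q, q ∉ Set.range g → ∃ C : Matrix (Fin w) ι' F, ∀ i b, P' q b (f i) = (U * C) i b)
    (h5 : ∃ C : Matrix (Fin w) (Fin w) F, ∀ i b, V' (f i) b = (V * C) i b)
    (h5' : ∃ C : Matrix (Fin w) (Fin w) F, ∀ i b, U' (f i) b = (U * C) i b)
    (t : BT E) (h : GoodV P κ U V t) : GoodV P' κ' U' V' (tmap g t) := by
  have hs : ∀ L, SepV P κ U V L → SepV P' κ' U' V' (L.map g) := by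
    rintro L ⟨C, hC1, hC2, hC3⟩
    refine ⟨C.map ⟨g, hg⟩, ?_, ?_, ?_⟩
    · intro q hq
      by_cases hqr : q ∈ Set.range g
      · obtain ⟨p, rfl⟩ := hqr
        rw [hκ] at hq
        rw [List.mem_map_of_injective hg, ← hC1 p hq]
        exact Finset.mem_map' ⟨g, hg⟩
      · constructor
        · intro hm
          obtain ⟨p, -, rfl⟩ := Finset.mem_map.1 hm
          exact absurd ⟨p, rfl⟩ hqr
        · intro hm
          obtain ⟨p, -, rfl⟩ := List.mem_map.1 hm
          exact absurd ⟨p, rfl⟩ hqr
    · exact half_embed P P' V V' f g hf hg h1 h2 h3 h4 h5 C hC2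
    · exact half_embed (fun p => (P p).transpose) (fun p => (P' p).transpose) U U' f g hf hg
        (fun p i j => h1 p j i) (fun p a b ha => h3 p b a ha) (fun p a b hb => h2 p b a hb)
        (fun q hq => h4' q hq) h5' C hC3
  induction t with
  | nil => trivial
  | leaf p => exact hs _ h
  | node l r hl hr =>
    refine ⟨hl h.1, hr h.2.1, ?_⟩
    rw [leaves_tmap, leaves_tmap, ← List.map_append]
    exact hs _ h.2.2

end Pool.Agent.Lib.MP_64d474_lc.MF
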