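import Pool.Agent.Lib.MP_64d474_lc.MF.Defs66
import Pool.Agent.Lib.MP_64d474_lc.MF.Rank66
import Pool.Agent.Lib.MP_64d474_lc.Kal.MainC

/-!
# Points at which a formula over matrices is defined and has a value of large rank
-/

set_option autoImplicit false

open Finset MvPolynomial

namespace Pool.Agent.Lib.MP_64d474_lc.MF

open Kal

universe u

/-- Row N: the symbolic matrix of the inverse of a formula. -/
def StNetM : Prop :=
  ∀ (F : Type u) [Field F] (m w : ℕ) (a : MFm F w m),
    ∃ (ι E : Type) (_ : Fintype ι) (_ : DecidableEq ι) (_ : Fintype E) (_ : DecidableEq E)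
      (P : E → Matrix ι ι F) (κ : E → Option (Fin m)) (t : BT E),
      (∀ x W, a.Val x W → ((mat P κ x).det ≠ 0 ↔ W.det ≠ 0)) ∧
      Good P (fun p => κ p ≠ none) w t ∧ t.leaves.Nodup ∧ (∀ p, p ∈ t.leaves ↔ κ p ≠ none) ∧
      (∀ k, (univ.filter fun p => κ p = some k).card = a.occ k) ∧
      ∀ p, κ p ≠ none → (P p).rank ≤ w

theorem card_wild {E : Type} [Fintype E] [DecidableEq E] {m : ℕ} (κ : E → Option (Fin m)) :
    (univ.filter fun p => κ p ≠ none).card = ∑ k, (univ.filter fun p => κ p = some k).card := by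
  classical
  have h : (univ.filter fun p => κ p ≠ none) =
      univ.biUnion fun k : Fin m => univ.filter fun p => κ p = some k := by
    ext p
    simp only [mem_filter, mem_univ, true_and, mem_biUnion]
    rw [Option.ne_none_iff_exists']
  rw [h, card_biUnion]
  intro k _ l _ hkl
  refine Finset.disjoint_left.2 ?_
  intro p hp hq
  rw [mem_filter] at hp hq
  exact hkl (Option.some_injective _ (hp.2.symm.trans hq.2))

theorem exists_poly66 (hT : StMainTree.{u}) (h13 : StBoth.{u}) (h14 : StDet.{u})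
    (hN : StNetM.{u}) (F : Type u) [Field F] [CharZero F] (m w R β N : ℕ) (hw : 1 ≤ w)
    (hR : 1 ≤ R) (hRN : 18 * R * w ^ 2 ≤ N) (b : Fin m → Fin β) (a : Fin m → ℕ)
    (hb : ∀ i, (univ.filter fun k => b k = i ∧ a k ≠ 0).card ≤ 1 ∨
        ∑ k ∈ univ.filter (fun k => b k = i), a k + 1 ≤ 2 * R) (x : Fin m → F) :
    ∀ ψ : MFm F w m, (∀ k, ψ.occ k ≤ a k) → ∀ V, ψ.Val x V →
      ∃ G : MvPolynomial (Fin m) F, G.totalDegree ≤ ψ.invs * (ψ.leaves * w) ∧
        (∃ (z : Fin N → F) (y : Fin β → F), eval (gen b z y) G ≠ 0) ∧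
        ∀ h, eval h G ≠ 0 → ∃ U, ψ.Val h U := by
  have one : (∃ (z : Fin N → F) (y : Fin β → F),
      eval (gen b z y) (1 : MvPolynomial (Fin m) F) ≠ 0) :=
    ⟨0, 0, by rw [map_one]; exact one_ne_zero⟩
  intro ψ
  induction ψ with
  | const C =>
    intro _ V _
    exact ⟨1, by simp, one, fun h _ => ⟨_, MFm.Val.const C⟩⟩
  | var k =>
    intro _ V _
    exact ⟨1, by simp, one, fun h _ => ⟨_, MFm.Val.var k⟩⟩
  | add p q hp hq =>
    intro hocc V hV
    cases hV with
    | add hV1 hV2 =>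
      obtain ⟨G, g1, g2, g3⟩ := hp (fun k => (Nat.le_add_right _ _).trans (hocc k)) _ hV1
      obtain ⟨H, h1, h2, h3⟩ := hq (fun k => (Nat.le_add_left _ _).trans (hocc k)) _ hV2
      refine ⟨G * H, ?_, h13 F m β N b _ _ g2 h2, fun h hh => ?_⟩
      · refine (totalDegree_mul _ _).trans ((Nat.add_le_add g1 h1).trans ?_)
        simp only [MFm.invs, MFm.leaves]
        nlinarith [Nat.zero_le (p.invs * (q.leaves * w)), Nat.zero_le (q.invs * (p.leaves * w))]
      · rw [map_mul] at hh
        obtain ⟨U, hU⟩ := g3 h (left_ne_zero_of_mul hh)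
        obtain ⟨U', hU'⟩ := h3 h (right_ne_zero_of_mul hh)
        exact ⟨_, MFm.Val.add hU hU'⟩
  | mul p q hp hq =>
    intro hocc V hV
    cases hV with
    | mul hV1 hV2 =>
      obtain ⟨G, g1, g2, g3⟩ := hp (fun k => (Nat.le_add_right _ _).trans (hocc k)) _ hV1
      obtain ⟨H, h1, h2, h3⟩ := hq (fun k => (Nat.le_add_left _ _).trans (hocc k)) _ hV2
      refine ⟨G * H, ?_, h13 F m β N b _ _ g2 h2, fun h hh => ?_⟩
      · refine (totalDegree_mul _ _).trans ((Nat.add_le_add g1 h1).trans ?_)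
        simp only [MFm.invs, MFm.leaves]
        nlinarith [Nat.zero_le (p.invs * (q.leaves * w)), Nat.zero_le (q.invs * (p.leaves * w))]
      · rw [map_mul] at hh
        obtain ⟨U, hU⟩ := g3 h (left_ne_zero_of_mul hh)
        obtain ⟨U', hU'⟩ := h3 h (right_ne_zero_of_mul hh)
        exact ⟨_, MFm.Val.mul hU hU'⟩
  | inv p hp =>
    intro hocc V hV
    cases hV with
    | @inv _ U hV1 hU =>
      obtain ⟨G, g1, g2, g3⟩ := hp hocc _ hV1
      obtain ⟨ι, E, _, _, _, _, P, κ, t, hdet, hgood, hnd, hleaf, hcnt, hrk⟩ := hN F m w p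
      obtain ⟨z, y, hzy⟩ := hT F ι E P m κ t w R β N hgood hnd hleaf hw hR hRN b
        (fun i => class_of_count κ b (fun k => p.occ k) hcnt R i
          (by
            have := hb i
            rcases this with h5 | h5
            · left
              refine (card_le_card fun k hk => ?_).trans h5
              rw [mem_filter] at hk ⊢
              refine ⟨hk.1, hk.2.1, ?_⟩
              have := hocc k
              have h6 := hk.2.2
              simp only [MFm.occ] at this
              omega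
            · right
              have : ∑ k ∈ univ.filter (fun k => b k = i), p.occ k ≤
                  ∑ k ∈ univ.filter (fun k => b k = i), a k := sum_le_sum fun k _ => hocc k
              omega)) x ((hdet x U hV1).2 hU)
      obtain ⟨f, f1, -, f2⟩ := h14 F ι E P m κ
      refine ⟨G * f, ?_, h13 F m β N b _ _ g2 ⟨z, y, by rw [f1]; exact hzy⟩, fun h hh => ?_⟩
      · have f3 : f.totalDegree ≤ p.leaves * w := by
          refine f2.trans ?_
          calc ∑ q ∈ univ.filter (fun q => κ q ≠ none), (P q).rank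
              ≤ ∑ q ∈ univ.filter (fun q => κ q ≠ none), w :=
                sum_le_sum fun q hq => hrk q (mem_filter.1 hq).2
            _ = (univ.filter fun q => κ q ≠ none).card * w := by rw [sum_const, smul_eq_mul]
            _ = p.leaves * w := by rw [card_wild, ← MFm.sum_occ]; simp only [hcnt]
        refine (totalDegree_mul _ _).trans ((Nat.add_le_add g1 f3).trans (le_of_eq ?_))
        simp only [MFm.invs, MFm.leaves]
        ring
      · rw [map_mul] at hh
        obtain ⟨U', hU'⟩ := g3 h (left_ne_zero_of_mul hh)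
        have h6 := right_ne_zero_of_mul hh
        rw [f1] at h6
        exact ⟨_, MFm.Val.inv hU' ((hdet h U' hU').1 h6)⟩

theorem mainM66 (hT : StMainTree.{u}) (h9 : StBal) (h12 : StGrid.{u}) (h13 : StBoth.{u})
    (h14 : StDet.{u}) (hN : StNetM.{u}) (F : Type u) [Field F] [CharZero F] (m w : ℕ)
    (φ : MFm F w m) (s g R β N D : ℕ) (hw : 1 ≤ w) (hs : φ.leaves ≤ s) (hg : φ.invs ≤ g)
    (hR : 1 ≤ R) (hβ : 2 * (s / R) + 2 ≤ β) (hRN : 18 * R * w ^ 2 ≤ N)
    (hD : s * w * (g + 1) ≤ D) (x : Fin m → F) (V : Matrix (Fin w) (Fin w) F)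
    (hv : φ.Val x V) :
    ∃ h ∈ hits m β N D, ∃ U, φ.Val (fun k => (h k : F)) U ∧ V.rank ≤ U.rank := by
  classical
  obtain ⟨K, hK, hVK⟩ := exists_compl66 V
  have hs' := hs
  rw [← MFm.sum_occ] at hs'
  obtain ⟨b, hbm, hb⟩ := exists_bal h9 (fun k => φ.occ k) hR hs' hβ
  obtain ⟨G, g1, g2, g3⟩ := exists_poly66 hT h13 h14 hN F m w R β N hw hR hRN b
    (fun k => φ.occ k) hb x (.inv (.add φ (.const K)))
    (fun k => by simp [MFm.occ]) _ (MFm.Val.inv (MFm.Val.add hv (MFm.Val.const K)) hVK)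
  have hdeg : G.totalDegree ≤ D := by
    refine g1.trans (le_trans ?_ hD)
    simp only [MFm.invs, MFm.leaves, add_zero]
    calc (φ.invs + 1) * (φ.leaves * w) ≤ (g + 1) * (s * w) :=
          Nat.mul_le_mul (Nat.succ_le_succ hg) (Nat.mul_le_mul_right _ hs)
      _ = s * w * (g + 1) := by ring
  obtain ⟨z, y, hz, hy, hev⟩ := h12 F m β N D b G hdeg g2
  refine ⟨gen b z y, mem_hits b hbm z y hz hy, ?_⟩
  obtain ⟨U, hU⟩ := g3 _ hev
  cases hU with
  | @inv _ U' hU1 hU2 =>
    cases hU1 with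
    | @add _ _ U1 U2 hA hB =>
      cases hB with
      | const _ => exact ⟨U1, hA, rank_le_of_det66 hK hU2⟩

end Pool.Agent.Lib.MP_64d474_lc.MF
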