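import Pool.Agent.Lib.MP_64d474_lc.MF.Cut99
import Pool.Agent.Lib.MP_64d474_lc.MF.Main66
import Pool.Agent.Lib.MP_64d474_lc.FR.TDP3_99

/-!
# The symbolic matrix of a formula over the ring of `w × w` matrices
-/

set_option autoImplicit false

open Finset Module Matrix MvPolynomial

namespace Pool.Agent.Lib.MP_64d474_lc.MF

open Pool.Agent.Lib.MP_64d474_lc.Kal
open Pool.Agent.Lib.MP_64d474_lc.Kal.Net (tmap leaves_tmap mat_add mat_mul)

variable {F : Type*} [Field F] {w m : ℕ}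

/-- the invariant of the induction -/
def Inv (φ : MFm F w m) : Prop :=
  ∃ (ι E : Type) (_ : Fintype ι) (_ : DecidableEq ι) (_ : Fintype E) (_ : DecidableEq E)
    (P : E → Matrix ι ι F) (κ : E → Option (Fin m)) (U V : Matrix ι (Fin w) F) (t : BT E),
    (∀ x W, φ.Val x W → (mat P κ x).det ≠ 0 ∧
      ∃ Y : Matrix ι (Fin w) F, mat P κ x * Y = V ∧ Uᵀ * Y = W) ∧
    GoodV P κ U V t ∧ t.leaves.Nodup ∧ (∀ p, p ∈ t.leaves ↔ κ p ≠ none) ∧
    (∀ k, (∑ p, if κ p = some k then 1 else 0) = φ.occ k) ∧ ∀ p, κ p ≠ none → (P p).rank ≤ w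

theorem inv_const (C : Matrix (Fin w) (Fin w) F) : Inv (MFm.const C : MFm F w m) := by
  refine ⟨Fin w, Unit, inferInstance, inferInstance, inferInstance, inferInstance, fun _ => 1,
    fun _ => none, 1, C, BT.nil, ?_, trivial, ?_, ?_, ?_, ?_⟩
  · intro x W h
    cases h
    have h1 : mat (fun _ : Unit => (1 : Matrix (Fin w) (Fin w) F))
        (fun _ => (none : Option (Fin m))) x = 1 := by
      simp [mat, cf]
    rw [h1]
    refine ⟨by simp, C, by simp, by simp⟩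
  · simp [BT.leaves]
  · simp [BT.leaves]
  · intro k
    simp [MFm.occ]
  · intro p hp
    simp at hp

theorem rank_corner (ι₁ ι₂ : Type) [Fintype ι₁] [DecidableEq ι₁] [Fintype ι₂] [DecidableEq ι₂]
    (A : Matrix ι₁ ι₁ F) : (fromBlocks A 0 0 0 : Matrix (ι₁ ⊕ ι₂) (ι₁ ⊕ ι₂) F).rank ≤ A.rank := by
  have h : (fromBlocks A 0 0 0 : Matrix (ι₁ ⊕ ι₂) (ι₁ ⊕ ι₂) F) =
      (fromRows (1 : Matrix ι₁ ι₁ F) (0 : Matrix ι₂ ι₁ F)) * (A *
        (fromCols (1 : Matrix ι₁ ι₁ F) (0 : Matrix ι₁ ι₂ F))) := by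
    rw [← Matrix.mul_assoc, fromRows_mul]
    rw [fromRows_mul_fromCols]
    simp
  rw [h]
  exact (Matrix.rank_mul_le_right _ _).trans (Matrix.rank_mul_le_left _ _)

theorem rank_corner' (ι₁ ι₂ : Type) [Fintype ι₁] [DecidableEq ι₁] [Fintype ι₂] [DecidableEq ι₂]
    (A : Matrix ι₂ ι₂ F) : (fromBlocks 0 0 0 A : Matrix (ι₁ ⊕ ι₂) (ι₁ ⊕ ι₂) F).rank ≤ A.rank := by
  have h : (fromBlocks 0 0 0 A : Matrix (ι₁ ⊕ ι₂) (ι₁ ⊕ ι₂) F) =
      (fromRows (0 : Matrix ι₁ ι₂ F) (1 : Matrix ι₂ ι₂ F)) * (A *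
        (fromCols (0 : Matrix ι₂ ι₁ F) (1 : Matrix ι₂ ι₂ F))) := by
    rw [← Matrix.mul_assoc, fromRows_mul]
    rw [fromRows_mul_fromCols]
    simp
  rw [h]
  exact (Matrix.rank_mul_le_right _ _).trans (Matrix.rank_mul_le_left _ _)

theorem rank_upper (w : ℕ) :
    (fromBlocks 0 (-1) 0 0 : Matrix (Fin w ⊕ Fin w) (Fin w ⊕ Fin w) F).rank ≤ w := by
  have h : (fromBlocks 0 (-1) 0 0 : Matrix (Fin w ⊕ Fin w) (Fin w ⊕ Fin w) F) =
      (fromRows (-1 : Matrix (Fin w) (Fin w) F) (0 : Matrix (Fin w) (Fin w) F)) *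
        (fromCols (0 : Matrix (Fin w) (Fin w) F) (1 : Matrix (Fin w) (Fin w) F)) := by
    rw [fromRows_mul_fromCols]
    simp
  rw [h]
  refine (Matrix.rank_mul_le_left _ _).trans ?_
  refine (Matrix.rank_le_card_width _).trans ?_
  simp

theorem inv_var (k : Fin m) : Inv (MFm.var k : MFm F w m) := by
  refine ⟨Fin w ⊕ Fin w, Bool, inferInstance, inferInstance, inferInstance, inferInstance,
    fun p => if p then 1 else fromBlocks 0 (-1) 0 0, fun p => if p then none else some k,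
    fromRows 1 0, fromRows 0 1, BT.leaf false, ?_, ?_, ?_, ?_, ?_, ?_⟩
  · intro x W hW
    cases hW
    have h : mat (fun p : Bool => if p then (1 : Matrix (Fin w ⊕ Fin w) (Fin w ⊕ Fin w) F) else
        fromBlocks 0 (-1) 0 0) (fun p => if p then none else some k) x =
        fromBlocks 1 (-(x k • (1 : Matrix (Fin w) (Fin w) F))) 0 1 := by
      have h1 : (1 : Matrix (Fin w ⊕ Fin w) (Fin w ⊕ Fin w) F) = fromBlocks 1 0 0 1 :=
        fromBlocks_one.symm
      simp only [mat, cf, Fintype.sum_bool, if_true, Option.elim, Bool.false_eq_true, if_false]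
      rw [h1, fromBlocks_smul, fromBlocks_smul, fromBlocks_add]
      simp
    rw [h]
    refine ⟨?_, fromRows (x k • (1 : Matrix (Fin w) (Fin w) F)) 1, ?_, ?_⟩
    · rw [det_fromBlocks_zero₂₁]
      simp
    · rw [fromBlocks_mul_fromRows]
      simp
    · rw [transpose_fromRows, fromCols_mul_fromRows]
      simp
  · refine ⟨univ, ?_, cutV_univ _ _ _⟩
    intro p hp
    cases p <;> simp at hp ⊢
  · simp [BT.leaves]
  · intro p
    cases p <;> simp [BT.leaves]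
  · intro l
    by_cases h : k = l <;> simp [MFm.occ, h]
  · intro p hp
    cases p
    · exact rank_upper w
    · simp at hp

theorem inv_add (a b : MFm F w m) (ha : Inv a) (hb : Inv b) : Inv (MFm.add a b) := by
  obtain ⟨ι₁, E₁, i1, i2, i3, i4, P₁, κ₁, U₁, V₁, t₁, hv₁, hg₁, hnd₁, hl₁, ho₁, hr₁⟩ := ha
  obtain ⟨ι₂, E₂, j1, j2, j3, j4, P₂, κ₂, U₂, V₂, t₂, hv₂, hg₂, hnd₂, hl₂, ho₂, hr₂⟩ := hb
  refine ⟨ι₁ ⊕ ι₂, E₁ ⊕ E₂, inferInstance, inferInstance, inferInstance, inferInstance,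
    Sum.elim (fun p => fromBlocks (P₁ p) 0 0 0) (fun p => fromBlocks 0 0 0 (P₂ p)),
    Sum.elim κ₁ κ₂, fromRows U₁ U₂, fromRows V₁ V₂,
    BT.node (tmap Sum.inl t₁) (tmap Sum.inr t₂), ?_, ⟨?_, ?_, univ, ?_, cutV_univ _ _ _⟩,
    ?_, ?_, ?_, ?_⟩
  · intro x W hW
    cases hW with
    | @add _ _ A B hA hB =>
      obtain ⟨d₁, Y₁, hY₁, hW₁⟩ := hv₁ x A hA
      obtain ⟨d₂, Y₂, hY₂, hW₂⟩ := hv₂ x B hB
      rw [mat_add]
      refine ⟨?_, fromRows Y₁ Y₂, ?_, ?_⟩
      · rw [det_fromBlocks_zero₂₁]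
        exact mul_ne_zero d₁ d₂
      · rw [fromBlocks_mul_fromRows, hY₁, hY₂]
        simp
      · rw [transpose_fromRows, fromCols_mul_fromRows, hW₁, hW₂]
  · refine goodV_embed P₁ _ κ₁ _ U₁ V₁ _ _ Sum.inl Sum.inl Sum.inl_injective Sum.inl_injective
      (fun p => rfl) (fun p i j => rfl) ?_ ?_ ?_ ?_ ⟨1, fun i b => by simp⟩ ⟨1, fun i b => by simp⟩
      t₁ hg₁
    · rintro p (i | i) (j | j) h <;> simp at h ⊢
    · rintro p (i | i) (j | j) h <;> simp at h ⊢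
    · rintro (q | q) hq
      · simp at hq
      · refine ⟨0, fun i b => ?_⟩
        rcases b with b | b <;> simp
    · rintro (q | q) hq
      · simp at hq
      · refine ⟨0, fun i b => ?_⟩
        rcases b with b | b <;> simp
  · refine goodV_embed P₂ _ κ₂ _ U₂ V₂ _ _ Sum.inr Sum.inr Sum.inr_injective Sum.inr_injective
      (fun p => rfl) (fun p i j => rfl) ?_ ?_ ?_ ?_ ⟨1, fun i b => by simp⟩ ⟨1, fun i b => by simp⟩
      t₂ hg₂
    · rintro p (i | i) (j | j) h <;> simp at h ⊢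
    · rintro p (i | i) (j | j) h <;> simp at h ⊢
    · rintro (q | q) hq
      · refine ⟨0, fun i b => ?_⟩
        rcases b with b | b <;> simp
      · simp at hq
    · rintro (q | q) hq
      · refine ⟨0, fun i b => ?_⟩
        rcases b with b | b <;> simp
      · simp at hq
  · rintro (p | p) hp
    · simpa [leaves_tmap, hl₁] using hp
    · simpa [leaves_tmap, hl₂] using hp
  · show (BT.leaves _ ++ BT.leaves _).Nodup
    rw [leaves_tmap, leaves_tmap, List.nodup_append]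
    refine ⟨hnd₁.map Sum.inl_injective, hnd₂.map Sum.inr_injective, ?_⟩
    intro p hp q hq
    obtain ⟨p', -, rfl⟩ := List.mem_map.1 hp
    obtain ⟨q', -, rfl⟩ := List.mem_map.1 hq
    simp
  · rintro (p | p)
    · simp [BT.leaves, leaves_tmap, hl₁]
    · simp [BT.leaves, leaves_tmap, hl₂]
  · intro k
    have e1 := ho₁ k
    have e2 := ho₂ k
    rw [Fintype.sum_sum_type]
    show (∑ p, if κ₁ p = some k then 1 else 0) + (∑ p, if κ₂ p = some k then 1 else 0) =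
      a.occ k + b.occ k
    rw [e1, e2]
  · rintro (p | p) hp
    · exact (rank_corner _ _ _).trans (hr₁ p hp)
    · exact (rank_corner' _ _ _).trans (hr₂ p hp)

theorem inv_mul (a b : MFm F w m) (ha : Inv a) (hb : Inv b) : Inv (MFm.mul a b) := by
  obtain ⟨ι₁, E₁, i1, i2, i3, i4, P₁, κ₁, U₁, V₁, t₁, hv₁, hg₁, hnd₁, hl₁, ho₁, hr₁⟩ := ha
  obtain ⟨ι₂, E₂, j1, j2, j3, j4, P₂, κ₂, U₂, V₂, t₂, hv₂, hg₂, hnd₂, hl₂, ho₂, hr₂⟩ := hb
  refine ⟨ι₁ ⊕ ι₂, (E₁ ⊕ E₂) ⊕ Unit, inferInstance, inferInstance, inferInstance, inferInstance,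
    Sum.elim (Sum.elim (fun p => fromBlocks (P₁ p) 0 0 0) (fun p => fromBlocks 0 0 0 (P₂ p)))
      (fun _ : Unit => fromBlocks 0 (-(V₁ * U₂ᵀ)) 0 0),
    Sum.elim (Sum.elim κ₁ κ₂) fun _ => none, fromRows U₁ 0, fromRows 0 V₂,
    BT.node (tmap (fun p => Sum.inl (Sum.inl p)) t₁) (tmap (fun p => Sum.inl (Sum.inr p)) t₂),
    ?_, ⟨?_, ?_, univ, ?_, cutV_univ _ _ _⟩, ?_, ?_, ?_, ?_⟩
  · intro x W hW
    cases hW with
    | @mul _ _ A B hA hB =>
      obtain ⟨d₁, Y₁, hY₁, hW₁⟩ := hv₁ x A hA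
      obtain ⟨d₂, Y₂, hY₂, hW₂⟩ := hv₂ x B hB
      rw [mat_mul]
      refine ⟨?_, fromRows (Y₁ * B) Y₂, ?_, ?_⟩
      · rw [det_fromBlocks_zero₂₁]
        exact mul_ne_zero d₁ d₂
      · rw [fromBlocks_mul_fromRows, ← Matrix.mul_assoc, hY₁, hY₂, Matrix.neg_mul,
          Matrix.mul_assoc V₁, hW₂]
        simp
      · rw [transpose_fromRows, fromCols_mul_fromRows, ← Matrix.mul_assoc, hW₁]
        simp
  · refine goodV_embed P₁ _ κ₁ _ U₁ V₁ _ _ Sum.inl (fun p => Sum.inl (Sum.inl p))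
      Sum.inl_injective (Sum.inl_injective.comp Sum.inl_injective)
      (fun p => rfl) (fun p i j => rfl) ?_ ?_ ?_ ?_ ⟨0, fun i b => by simp⟩
      ⟨1, fun i b => by simp⟩ t₁ hg₁
    · rintro p (i | i) (j | j) h <;> simp at h ⊢
    · rintro p (i | i) (j | j) h <;> simp at h ⊢
    · rintro ((q | q) | q) hq
      · simp at hq
      · refine ⟨0, fun i b => ?_⟩
        rcases b with b | b <;> simp
      · refine ⟨fromCols 0 (-U₂ᵀ), fun i b => ?_⟩
        rcases b with b | b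
        · simp [Matrix.mul_apply]
        · simp [Matrix.mul_apply]
    · rintro ((q | q) | q) hq
      · simp at hq
      · refine ⟨0, fun i b => ?_⟩
        rcases b with b | b <;> simp
      · refine ⟨0, fun i b => ?_⟩
        rcases b with b | b <;> simp
  · refine goodV_embed P₂ _ κ₂ _ U₂ V₂ _ _ Sum.inr (fun p => Sum.inl (Sum.inr p))
      Sum.inr_injective (Sum.inl_injective.comp Sum.inr_injective)
      (fun p => rfl) (fun p i j => rfl) ?_ ?_ ?_ ?_ ⟨1, fun i b => by simp⟩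
      ⟨0, fun i b => by simp⟩ t₂ hg₂
    · rintro p (i | i) (j | j) h <;> simp at h ⊢
    · rintro p (i | i) (j | j) h <;> simp at h ⊢
    · rintro ((q | q) | q) hq
      · refine ⟨0, fun i b => ?_⟩
        rcases b with b | b <;> simp
      · simp at hq
      · refine ⟨0, fun i b => ?_⟩
        rcases b with b | b <;> simp
    · rintro ((q | q) | q) hq
      · refine ⟨0, fun i b => ?_⟩
        rcases b with b | b <;> simp
      · simp at hq
      · refine ⟨fromCols (-V₁ᵀ) 0, fun i b => ?_⟩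
        rcases b with b | b
        · simp [Matrix.mul_apply, mul_comm]
        · simp [Matrix.mul_apply]
  · rintro ((p | p) | p) hp
    · simpa [leaves_tmap, hl₁] using hp
    · simpa [leaves_tmap, hl₂] using hp
    · simp at hp
  · show (BT.leaves _ ++ BT.leaves _).Nodup
    rw [leaves_tmap, leaves_tmap, List.nodup_append]
    refine ⟨hnd₁.map (Sum.inl_injective.comp Sum.inl_injective),
      hnd₂.map (Sum.inl_injective.comp Sum.inr_injective), ?_⟩
    intro p hp q hq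
    obtain ⟨p', -, rfl⟩ := List.mem_map.1 hp
    obtain ⟨q', -, rfl⟩ := List.mem_map.1 hq
    simp
  · rintro ((p | p) | p)
    · simp [BT.leaves, leaves_tmap, hl₁]
    · simp [BT.leaves, leaves_tmap, hl₂]
    · simp [BT.leaves, leaves_tmap]
  · intro k
    have e1 := ho₁ k
    have e2 := ho₂ k
    rw [Fintype.sum_sum_type, Fintype.sum_sum_type]
    show ((∑ p, if κ₁ p = some k then 1 else 0) + (∑ p, if κ₂ p = some k then 1 else 0)) +
      (∑ _p : Unit, if (none : Option (Fin m)) = some k then 1 else 0) = a.occ k + b.occ k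
    rw [e1, e2]
    simp
  · rintro ((p | p) | p) hp
    · exact (rank_corner _ _ _).trans (hr₁ p hp)
    · exact (rank_corner' _ _ _).trans (hr₂ p hp)
    · simp at hp

/-- the matrix of the inverse -/
theorem mat_inv {ι₁ E₁ : Type} [Fintype ι₁] [Fintype E₁] [DecidableEq E₁]
    (P₁ : E₁ → Matrix ι₁ ι₁ F) (κ₁ : E₁ → Option (Fin m)) (U₁ V₁ : Matrix ι₁ (Fin w) F)
    (x : Fin m → F) :
    mat (Sum.elim (fun p => fromBlocks (P₁ p) 0 0 0)
      (fun _ : Unit => fromBlocks 0 V₁ (-U₁ᵀ) 0))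
      (Sum.elim κ₁ fun _ => none) x =
      (fromBlocks (mat P₁ κ₁ x) V₁ (-U₁ᵀ) 0 : Matrix (ι₁ ⊕ Fin w) (ι₁ ⊕ Fin w) F) := by
  ext a b
  rcases a with a | a <;> rcases b with b | b <;>
    simp [mat, cf, Matrix.sum_apply]

/-- the network of an inverse, with the converse for its determinant -/
theorem inv_inv' (a : MFm F w m) (ha : Inv a) :
    ∃ (ι E : Type) (_ : Fintype ι) (_ : DecidableEq ι) (_ : Fintype E) (_ : DecidableEq E)
    (P : E → Matrix ι ι F) (κ : E → Option (Fin m)) (U V : Matrix ι (Fin w) F) (t : BT E),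
    (∀ x A, a.Val x A → ((mat P κ x).det ≠ 0 ↔ A.det ≠ 0) ∧ (A.det ≠ 0 →
      ∃ Y : Matrix ι (Fin w) F, mat P κ x * Y = V ∧ Uᵀ * Y = A⁻¹)) ∧
    GoodV P κ U V t ∧ t.leaves.Nodup ∧ (∀ p, p ∈ t.leaves ↔ κ p ≠ none) ∧
    (∀ k, (∑ p, if κ p = some k then 1 else 0) = a.occ k) ∧
    ∀ p, κ p ≠ none → (P p).rank ≤ w := by
  obtain ⟨ι₁, E₁, i1, i2, i3, i4, P₁, κ₁, U₁, V₁, t₁, hv₁, hg₁, hnd₁, hl₁, ho₁, hr₁⟩ := ha
  refine ⟨ι₁ ⊕ Fin w, E₁ ⊕ Unit, inferInstance, inferInstance, inferInstance, inferInstance,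
    Sum.elim (fun p => fromBlocks (P₁ p) 0 0 0)
      (fun _ : Unit => fromBlocks 0 V₁ (-U₁ᵀ) 0),
    Sum.elim κ₁ fun _ => none, fromRows 0 1, fromRows 0 1, tmap Sum.inl t₁,
    ?_, ?_, ?_, ?_, ?_, ?_⟩
  · intro x A hA
    obtain ⟨d₁, Y₁, hY₁, hW₁⟩ := hv₁ x A hA
    rw [mat_inv]
    have hdet : (fromBlocks (mat P₁ κ₁ x) V₁ (-U₁ᵀ) 0 :
        Matrix (ι₁ ⊕ Fin w) (ι₁ ⊕ Fin w) F).det = (mat P₁ κ₁ x).det * A.det := by
      rw [FR.P3.det_fb (mat P₁ κ₁ x) V₁ (-U₁ᵀ) 0 Y₁ d₁ hY₁]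
      rw [Matrix.neg_mul, hW₁]
      simp
    refine ⟨?_, ?_⟩
    · rw [hdet]
      constructor
      · intro h
        exact right_ne_zero_of_mul h
      · intro h
        exact mul_ne_zero d₁ h
    · intro hAd
      have hu : IsUnit A.det := isUnit_iff_ne_zero.2 hAd
      refine ⟨fromRows (-(Y₁ * A⁻¹)) A⁻¹, ?_, ?_⟩
      · rw [fromBlocks_mul_fromRows, Matrix.mul_neg, ← Matrix.mul_assoc, hY₁, Matrix.neg_mul,
          Matrix.mul_neg, ← Matrix.mul_assoc U₁ᵀ, hW₁, Matrix.mul_nonsing_inv A hu]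
        simp
      · rw [transpose_fromRows, fromCols_mul_fromRows]
        simp
  · refine goodV_embed P₁ _ κ₁ _ U₁ V₁ _ _ Sum.inl Sum.inl
      Sum.inl_injective Sum.inl_injective
      (fun p => rfl) (fun p i j => rfl) ?_ ?_ ?_ ?_ ⟨0, fun i b => by simp⟩
      ⟨0, fun i b => by simp⟩ t₁ hg₁
    · rintro p (i | i) (j | j) h <;> simp at h ⊢
    · rintro p (i | i) (j | j) h <;> simp at h ⊢
    · rintro (q | q) hq
      · simp at hq
      · refine ⟨fromCols 0 1, fun i b => ?_⟩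
        rw [mul_fromCols]
        rcases b with b | b <;> simp
    · rintro (q | q) hq
      · simp at hq
      · refine ⟨fromCols 0 (-1), fun i b => ?_⟩
        rw [mul_fromCols]
        rcases b with b | b <;> simp
  · rw [leaves_tmap]
    exact hnd₁.map Sum.inl_injective
  · rintro (p | p)
    · simp [leaves_tmap, hl₁]
    · simp [leaves_tmap]
  · intro k
    have e1 := ho₁ k
    rw [Fintype.sum_sum_type]
    show (∑ p, if κ₁ p = some k then 1 else 0) +
      (∑ _p : Unit, if (none : Option (Fin m)) = some k then 1 else 0) = a.occ k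
    rw [e1]
    simp
  · rintro (p | p) hp
    · exact (rank_corner _ _ _).trans (hr₁ p hp)
    · simp at hp

theorem inv_inv (a : MFm F w m) (ha : Inv a) : Inv (MFm.inv a) := by
  obtain ⟨ι, E, i1, i2, i3, i4, P, κ, U, V, t, hv, hg, hnd, hl, ho, hr⟩ := inv_inv' a ha
  refine ⟨ι, E, i1, i2, i3, i4, P, κ, U, V, t, ?_, hg, hnd, hl, ho, hr⟩
  intro x W hW
  cases hW with
  | @inv _ A hA hd =>
    exact ⟨((hv x A hA).1).2 hd, (hv x A hA).2 hd⟩

theorem inv_all (φ : MFm F w m) : Inv φ := by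
  induction φ with
  | const c => exact inv_const c
  | var k => exact inv_var k
  | add a b ha hb => exact inv_add a b ha hb
  | mul a b ha hb => exact inv_mul a b ha hb
  | inv a ha => exact inv_inv a ha

/-- the network of the inverse of a formula -/
theorem stNetM.{u} : StNetM.{u} := by
  intro F _ m w a
  obtain ⟨ι, E, i1, i2, i3, i4, P, κ, U, V, t, hv, hg, hnd, hl, ho, hr⟩ :=
    inv_inv' a (inv_all a)
  refine ⟨ι, E, i1, i2, i3, i4, P, κ, t, fun x W hW => (hv x W hW).1,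
    good_of_goodV P κ U V t hg, hnd, hl, ?_, hr⟩
  intro k
  rw [← ho k, Finset.card_filter]

end Pool.Agent.Lib.MP_64d474_lc.MF
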